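import Pool.Agent.Lib.MP_918dbb_lc.Models

/-!
# A model companion that is not absolute, for an extension of ZFC

Question 1 of the problem asks whether, for every set theory `S ⊇ ZFC` and every `A` with
`∈_A ⊇ ∈_{Δ₀}`, if `S + T_{∈,A}` has a model companion then it has an absolute model companion.
The answer is no.
-/

universe w

namespace Pool.Agent.Results.MP_918dbb_lc.McNotAmc

open FirstOrder FirstOrder.Language
open Pool.Agent.Lib.MP_918dbb_lc

/-- There are a theory `S ⊇ ZFC` in the signature `{∈}` and a set `A` of pairs containing the
symbols of `∈_{Δ₀}` such that `S + T_{∈,A}` has a model companion and no absolute model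
companion; and the same holds for `S + T_{{∈},A}` (that is, without the requirement that the
constant `c_∈` denotes the empty set). -/
theorem result :
    ∃ (S : Lset.Theory) (A : Set (FormBit Lset)), ZFC ⊆ S ∧ deltaZeroSig ⊆ A ∧
      (∃ T : (morleyLang A).Theory,
        IsModelCompanion.{w} T ((morleyIncl A).onTheory S ∪ setMorleyTheory A)) ∧
      (¬ ∃ T : (morleyLang A).Theory,
        IsAMC.{w} T ((morleyIncl A).onTheory S ∪ setMorleyTheory A)) ∧
      (∃ T : (morleyLang A).Theory,
        IsModelCompanion.{w} T ((morleyIncl A).onTheory S ∪ morleyTheory A)) ∧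
      (¬ ∃ T : (morleyLang A).Theory,
        IsAMC.{w} T ((morleyIncl A).onTheory S ∪ morleyTheory A)) :=
  main_thm.{w}

end Pool.Agent.Results.MP_918dbb_lc.McNotAmc
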